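import Pool.Agent.SYS.GoalA

/-!
# MP_650813_pr: the separating systole of random triangulations of high genus

For every `θ ∈ (0, 1/2)`: for uniform rooted triangulations of genus `g n` with `2n` faces, `g n / n → θ`, the minimum length
`sepsys` of a separating (null-homologous) non-contractible cycle satisfies `sepsys / log n → 1 / x` in probability, where
`x > 0` is the solution of `3 x cosh x = (1 - 2 θ) sinh x (cosh² x + 2)`.
-/

namespace Helper23.Kept.SeparatingSystole

open Filter Topology SST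

theorem kept {θ : ℝ} (hθ : 0 < θ) (hθ' : θ < 1 / 2) :
    ∃ x : ℝ, (0 < x ∧ 3 * x * Real.cosh x = (1 - 2 * θ) * (Real.sinh x * (Real.cosh x ^ 2 + 2))) ∧
      (∀ y : ℝ, 0 < y → 3 * y * Real.cosh y = (1 - 2 * θ) * (Real.sinh y * (Real.cosh y ^ 2 + 2)) → y = x) ∧
      ∀ g : ℕ → ℕ, Tendsto (fun n => (g n : ℝ) / n) atTop (𝓝 θ) → ∀ ε : ℝ, 0 < ε →
        Tendsto (fun n : ℕ => (Nat.card {q : RTri n (g n) //
          ¬ q.HasSep ((1 / x - ε) * Real.log n) ∧ q.HasSep ((1 / x + ε) * Real.log n)} : ℝ) / Nat.card (RTri n (g n)))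
          atTop (𝓝 1) :=
  SYS.t1_form hθ hθ'

end Helper23.Kept.SeparatingSystole
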