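import Pool.Agent.SST.E.Final
import Pool.Agent.SST.T.Main
import Pool.Agent.SST.S.Tail
import Pool.Agent.SST.S.Contour

/-!
# MP_650813_pr: simple separating non-contractible cycles of logarithmic length

For every `θ ∈ (0, 1/2)` there is a constant `A` such that, for every sequence `g n` with
`g n / n → θ`, the proportion of the rooted triangulations of genus `g n` with `2n` faces which have a
simple separating (null-homologous) non-contractible cycle of length at most `A log n` tends to 1.
So the simple separating systole is finite with probability tending to 1 and of order `log n`.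

Paper proof: `/team-store/sst_proof.md`.
-/

namespace Helper23.Kept.SimpleSeparatingCycle

open Filter Topology SST

theorem kept {θ : ℝ} (hθ : 0 < θ) (hθ' : θ < 1 / 2) :
    ∃ A : ℝ, ∀ g : ℕ → ℕ, Tendsto (fun n => (g n : ℝ) / n) atTop (𝓝 θ) →
      Tendsto (fun n : ℕ => (Nat.card {q : RTri n (g n) // q.HasSSC (A * Real.log n)} : ℝ) /
        Nat.card (RTri n (g n))) atTop (𝓝 1) :=
  final toda_one toda_two tail_bound contour_bound hθ hθ'

end Helper23.Kept.SimpleSeparatingCycle
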